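import Pool.Agent.NH.Crs
import Pool.Agent.NH.Far
import Pool.Agent.NH.Red
import Pool.Agent.NH.Avg
import Pool.Agent.NH.Fix
import Pool.Agent.NH.RS
import Pool.Agent.NH.Blk
import Pool.Agent.NH.Sub
import Pool.Agent.NH.N1
import Pool.Agent.NH.NA
import Pool.Agent.NH.NB
import Pool.Agent.NH.N
import Pool.Agent.NH.Diag
import Pool.Agent.NH.Comp
import Pool.Agent.NH.Up
import Pool.Agent.NH.Outer
import Pool.Agent.NH.Lin
import Pool.Agent.NHV.DSub
import Pool.Agent.NHV.DDec
import Pool.Agent.NHV.M2
import Pool.Agent.NHV.ParV
import Pool.Agent.NHV.FinalV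

/-!
# MP_4ed1f9_lc: the negation hierarchy for deterministic decomposable circuits

Models of a deterministic decomposable circuit with NOT gates are counted in one pass. For every
`t ≥ 0` such circuits of linear size with `t + 1` nested negations compute functions with which
circuits with `t` nested negations and `s` gates agree on at most a share `s / 2 ^ α` more points
than the constant `false`, where `α = c * n ^ (1 / (t + 1)) / (t + 1)`. For `t = 0` this is
`α = c * n`: linear size d-DNNFs have negations which need `2 ^ (c n)` gates even as DNNFs. The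
bound is superpolynomial for all `t` up to a constant times `log n / log log n`.

The definitions are in `Pool/Agent/NH/Circ.lean`.
-/

set_option autoImplicit false

namespace Pool.Agent.Results.MP_4ed1f9_lc.NegationHierarchy

open Finset Pool.Agent.NH Pool.Agent.NHV

/-- There are `c > 0` and `C` such that for all `t ≥ 0` and `n ≥ 1` there is a Boolean function `F`
of `n` variables with the following properties, where `α = c * n ^ (1 / (t + 1)) / (t + 1)`.
* The complement of `F` is computed by a deterministic gate with at most `t` nested negations of a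
  circuit with at most `C * n` gates whose leaves are literals or constants; so one more NOT gate
  gives `F` with at most `t + 1` nested negations.
* There is a 3-CNF formula `φ (x, y)` with at most `C * n` variables `y` and `C * n` clauses which
  for given `x` is satisfied by exactly one `y` if `F x` is true and by none if `F x` is false.
* The number of models of `F` is between `2 ^ n / 5` and `2 ^ n / 2`.
* Let `g` be a gate with at most `t` nested negations of a circuit with `s` gates whose leaves
  compute arbitrary functions of at most `α` variables. If all OR gates below `g` are deterministic,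
  then `g` agrees with `F` on at most `s * 2 ^ n / 2 ^ α` more points than the constant `false`. If
  `g ≤ F`, and if the OR gates above the negations are deterministic or not, then `g` has at most
  `s * 2 ^ n / 2 ^ α` models. -/
theorem result : ∃ (c : ℝ) (C : ℕ), 0 < c ∧ ∀ t n : ℕ, 1 ≤ n → ∀ α : ℝ,
    α = c * (n : ℝ) ^ (1 / ((t : ℝ) + 1)) / (t + 1) → ∃ F : (Fin n → Bool) → Bool,
    (∃ L : List (Gate (Fin n)), IsCircuit 1 L ∧ L.length ≤ C * n ∧
      ∃ g ∈ L, g.negs ≤ t ∧ g.det = true ∧ ∀ x, g.f x = !F x) ∧
    (∃ (s : ℕ) (φ : CNF (Fin n ⊕ Fin s)), s ≤ C * n ∧ φ.length ≤ C * n ∧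
      (∀ K ∈ φ, K.length ≤ 3) ∧
      ∀ x, (F x = true → ∃! y : Fin s → Bool, Sat φ (Sum.elim x y)) ∧
        (F x = false → ∀ y : Fin s → Bool, ¬ Sat φ (Sum.elim x y))) ∧
    (2 ^ n ≤ 5 * (univ.filter fun x => F x = true).card ∧
      2 * (univ.filter fun x => F x = true).card ≤ 2 ^ n) ∧
    ∀ (k : ℕ) (L : List (Gate (Fin n))), (k : ℝ) ≤ α → IsCircuit k L → ∀ g ∈ L, g.negs ≤ t →
      (g.det = true → (2 : ℝ) ^ α *
        ((univ.filter fun x => g.f x = F x).card - (univ.filter fun x => F x = false).card) ≤
          L.length * 2 ^ n) ∧
      ((∀ x, g.f x = true → F x = true) →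
        (2 : ℝ) ^ α * (univ.filter fun x => g.f x = true).card ≤ L.length * 2 ^ n) := by
  have hM : St_M2 := thm_M2 thm_DSub thm_DDec thm_Sub
  exact thm_FinalV
    (thm_ParV thm_Lin
      (thm_Blk (thm_Fix thm_Crs thm_Far) (thm_RS thm_Crs thm_Far))
      (thm_N1 (thm_Fix thm_Crs thm_Far))
      (thm_N (thm_NA thm_Far thm_Red thm_Avg thm_Sub) (thm_NB thm_Crs thm_Far) thm_Sub)
      hM (thm_Up thm_Diag thm_Comp))
    thm_Outer hM

end Pool.Agent.Results.MP_4ed1f9_lc.NegationHierarchy
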